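import Pool.Agent.H83.VU.Targets

/-!
# MP_c59857_nt, row REC: the recursion of the mean value theorem
-/

set_option autoImplicit false

open Finset Pool.Agent.H83.VU

namespace Pool.Agent.H46.VU

theorem J_eq (T k N : ℕ) :
    J T k N = ((box T N ×ˢ box T N).filter fun q => ps k q.1 = ps k q.2).card := by
  unfold J rr Pool.Agent.H83.VU.box
  congr 1
  refine Finset.filter_congr fun q _ => ?_
  rw [sub_eq_zero]

theorem swap_card (k T N : ℕ) :
    ((box T N ×ˢ box T N).filter fun q => ps k q.1 = ps k q.2 ∧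
      (univ.image q.2).card < k).card ≤
    ((box T N ×ˢ box T N).filter fun q => ps k q.1 = ps k q.2 ∧
      (univ.image q.1).card < k).card := by
  classical
  refine Finset.card_le_card_of_injOn Prod.swap ?_ (Prod.swap_injective.injOn)
  intro q hq
  simp only [Finset.coe_filter, Finset.mem_product, Set.mem_ofPred_eq, Prod.fst_swap,
    Prod.snd_swap] at hq ⊢
  exact ⟨⟨hq.1.2, hq.1.1⟩, hq.2.1.symm, hq.2.2⟩

theorem split_card (k T N : ℕ) :
    J T k N ≤ ((box T N ×ˢ box T N).filter fun q => ps k q.1 = ps k q.2 ∧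
      k ≤ (univ.image q.1).card ∧ k ≤ (univ.image q.2).card).card +
    2 * ((box T N ×ˢ box T N).filter fun q => ps k q.1 = ps k q.2 ∧
      (univ.image q.1).card < k).card := by
  classical
  rw [J_eq]
  have h1 : ((box T N ×ˢ box T N).filter fun q => ps k q.1 = ps k q.2) ⊆
      (((box T N ×ˢ box T N).filter fun q => ps k q.1 = ps k q.2 ∧
        k ≤ (univ.image q.1).card ∧ k ≤ (univ.image q.2).card) ∪
      ((box T N ×ˢ box T N).filter fun q => ps k q.1 = ps k q.2 ∧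
        (univ.image q.1).card < k)) ∪
      ((box T N ×ˢ box T N).filter fun q => ps k q.1 = ps k q.2 ∧
        (univ.image q.2).card < k) := by
    intro q hq
    rw [Finset.mem_filter] at hq
    rw [Finset.mem_union, Finset.mem_union, Finset.mem_filter, Finset.mem_filter,
      Finset.mem_filter]
    by_cases h2 : k ≤ (univ.image q.1).card
    · by_cases h3 : k ≤ (univ.image q.2).card
      · exact Or.inl (Or.inl ⟨hq.1, hq.2, h2, h3⟩)
      · exact Or.inr ⟨hq.1, hq.2, by omega⟩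
    · exact Or.inl (Or.inr ⟨hq.1, hq.2, by omega⟩)
  have h2 := (Finset.card_le_card h1).trans (Finset.card_union_le _ _)
  have h3 := Finset.card_union_le ((box T N ×ˢ box T N).filter fun q => ps k q.1 = ps k q.2 ∧
        k ≤ (univ.image q.1).card ∧ k ≤ (univ.image q.2).card)
      ((box T N ×ˢ box T N).filter fun q => ps k q.1 = ps k q.2 ∧
        (univ.image q.1).card < k)
  have h4 := swap_card k T N
  omega

theorem cA_le (hDSC : T_DSC) (k s N : ℕ) (P : Finset ℕ) (hk : 2 ≤ k) (hP : k ^ 3 ≤ P.card)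
    (hP2 : ∀ p ∈ P, p.Prime ∧ N < p ^ k) (A : Finset ℤ) :
    cA k s (II k N) A ≤ ∑ p ∈ P, cA k s (XX k N p) A := by
  classical
  unfold cA
  refine le_trans (Finset.card_le_card ?_) Finset.card_biUnion_le
  intro q hq
  rw [Finset.mem_filter, Finset.mem_product, Finset.mem_product] at hq
  obtain ⟨p, hp, h1, h2⟩ := hDSC k N P q.1.1 q.1.2 hk hq.1.1.1 hq.1.1.2 hP hP2
  rw [Finset.mem_biUnion]
  refine ⟨p, hp, ?_⟩
  rw [Finset.mem_filter, Finset.mem_product, Finset.mem_product]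
  exact ⟨⟨⟨h1, h2⟩, hq.1.2⟩, hq.2⟩

theorem pf_REC (hSPB : T_SPB) (hPOS : T_POS) (hDEG : T_DEG) (hDSC : T_DSC) (hBER : T_BER) :
    T_REC := by
  classical
  intro k s N hk hs hN
  have hN1 : 1 ≤ N := le_trans Nat.one_le_two_pow hN
  have hNR : (1 : ℝ) ≤ N := by exact_mod_cast hN1
  have hN0 : (0 : ℝ) < N := by linarith
  have hk0 : k ≠ 0 := by omega
  have hkR : (2 : ℝ) ≤ k := by exact_mod_cast hk
  have hkp : (0 : ℝ) < k := by linarith
  set w : ℝ := (N : ℝ) ^ (1 / (k : ℝ)) with hw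
  have hw1 : 1 ≤ w := Real.one_le_rpow hNR (by positivity)
  have hwk : w ^ k = N := by
    rw [hw, one_div]
    exact Real.rpow_inv_natCast_pow hN0.le hk0
  set x₀ : ℕ := ⌈w⌉₊ with hx₀
  have hx1 : w ≤ x₀ := Nat.le_ceil w
  have hx2 : (x₀ : ℝ) ≤ 2 * w := by
    have := (Nat.ceil_lt_add_one (by linarith : (0 : ℝ) ≤ w)).le
    linarith
  have hx3 : 1 ≤ x₀ := by
    have : (1 : ℝ) ≤ x₀ := hw1.trans hx1
    exact_mod_cast this
  have hx4 : N ≤ x₀ ^ k := by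
    have h1 : (N : ℝ) ≤ (x₀ : ℝ) ^ k := by
      rw [← hwk]
      exact pow_le_pow_left₀ (by linarith) hx1 k
    exact_mod_cast h1
  obtain ⟨P, hPc, hP⟩ := hBER (k ^ 3) x₀ hx3
  have hP1 : ∀ p ∈ P, N < p ^ k := fun p hp =>
    hx4.trans_lt (Nat.pow_lt_pow_left (hP p hp).2.1 hk0)
  have hP2 : ∀ p ∈ P, (p : ℝ) ≤ 2 ^ (k ^ 3 + 1) * w := by
    intro p hp
    have h1 : (p : ℝ) ≤ 2 ^ (k ^ 3) * x₀ := by exact_mod_cast (hP p hp).2.2
    calc (p : ℝ) ≤ 2 ^ (k ^ 3) * x₀ := h1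
      _ ≤ 2 ^ (k ^ 3) * (2 * w) := mul_le_mul_of_nonneg_left hx2 (by positivity)
      _ = 2 ^ (k ^ 3 + 1) * w := by rw [pow_succ]; ring
  have hP3 : ∀ p ∈ P, p ≤ N := by
    intro p hp
    have h0 : (2 : ℝ) ^ (k ^ 3 + k) ≤ (N : ℝ) ^ (1 / 2 : ℝ) := by
      have h1 : ((2 : ℝ) ^ (k ^ 3 + k)) ^ 2 ≤ N := by
        rw [← pow_mul]
        have : (2 ^ (2 * k ^ 3 + 2 * k) : ℝ) ≤ N := by exact_mod_cast hN
        refine le_trans (le_of_eq ?_) this
        congr 1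
        ring
      rw [← Real.sqrt_eq_rpow]
      exact Real.le_sqrt_of_sq_le h1
    have h2 : (N : ℝ) ^ (1 / 2 : ℝ) ≤ (N : ℝ) ^ (1 - 1 / (k : ℝ)) := by
      apply Real.rpow_le_rpow_of_exponent_le hNR
      have : 1 / (k : ℝ) ≤ 1 / 2 := one_div_le_one_div_of_le (by norm_num) hkR
      linarith
    have h3 : (2 : ℝ) ^ (k ^ 3 + 1) ≤ 2 ^ (k ^ 3 + k) :=
      pow_le_pow_right₀ (by norm_num) (by omega)
    have h4 : (p : ℝ) ≤ N := by
      calc (p : ℝ) ≤ 2 ^ (k ^ 3 + 1) * w := hP2 p hp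
        _ ≤ (N : ℝ) ^ (1 - 1 / (k : ℝ)) * w :=
            mul_le_mul_of_nonneg_right (h3.trans (h0.trans h2)) (by linarith)
        _ = N := by
            rw [hw, ← Real.rpow_add hN0, sub_add_cancel, Real.rpow_one]
    exact_mod_cast h4
  have hP4 : ∀ p ∈ P, k < p := by
    intro p hp
    by_contra hcon
    push Not at hcon
    have h1 := hP1 p hp
    have h2 : p ^ k ≤ k ^ k := Nat.pow_le_pow_left hcon k
    have h3 : k ^ k ≤ (2 ^ k) ^ k := Nat.pow_le_pow_left (Nat.lt_two_pow_self).le k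
    have h4 : (2 ^ k) ^ k ≤ 2 ^ (2 * k ^ 3 + 2 * k) := by
      rw [← pow_mul]
      apply Nat.pow_le_pow_right (by norm_num)
      have : k * k ≤ k ^ 3 := by
        calc k * k = k ^ 2 := by ring
          _ ≤ k ^ 3 := Nat.pow_le_pow_right (by omega) (by norm_num)
      omega
    omega
  have hPne : P.Nonempty := by
    rw [← Finset.card_pos, hPc]; positivity
  obtain ⟨p, hp, hmax⟩ := Finset.exists_max_image P
    (fun p => cA k s (XX k N p) (Icc 1 (N : ℤ))) hPne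
  refine ⟨p, (hP p hp).1, hP3 p hp, hP2 p hp, ?_⟩
  -- the estimate
  have hA1 := cA_le hDSC k s N P hk hPc.ge (fun p hp => ⟨(hP p hp).1, hP1 p hp⟩) (Icc 1 (N : ℤ))
  have hA2 : ∑ p ∈ P, cA k s (XX k N p) (Icc 1 (N : ℤ)) ≤
      k ^ 3 * cA k s (XX k N p) (Icc 1 (N : ℤ)) := by
    calc ∑ p ∈ P, cA k s (XX k N p) (Icc 1 (N : ℤ)) ≤
        ∑ _q ∈ P, cA k s (XX k N p) (Icc 1 (N : ℤ)) := Finset.sum_le_sum hmax
      _ = k ^ 3 * cA k s (XX k N p) (Icc 1 (N : ℤ)) := by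
          rw [Finset.sum_const, hPc, smul_eq_mul]
  have hA3 := hSPB k s N p (by omega) hs (hP p hp).1 (hP4 p hp) (hP1 p hp).le
  have hA4 := hPOS k s N (by omega)
  have hA5 := hDEG k (s + k) N hk hN1
  have hA6 := split_card k (s + k) N
  set S1 := ((box (s + k) N ×ˢ box (s + k) N).filter fun q => ps k q.1 = ps k q.2 ∧
      k ≤ (univ.image q.1).card ∧ k ≤ (univ.image q.2).card).card with hS1
  set S2 := ((box (s + k) N ×ˢ box (s + k) N).filter fun q => ps k q.1 = ps k q.2 ∧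
      (univ.image q.1).card < k).card with hS2
  set D : ℝ := (k : ℝ) ^ (s + k) * (N : ℝ) ^ (k - 1) with hD
  have hB1 : S1 ≤ (s + k) ^ (2 * k) * (k ^ 3 * (p ^ (2 * s) * (N ^ k *
      (k.factorial * p ^ (k * (k - 1) / 2))) * J s k (N / p + 1))) := by
    refine hA4.trans (Nat.mul_le_mul_left _ ?_)
    exact hA1.trans (hA2.trans (Nat.mul_le_mul_left _ hA3))
  have hB2 : (S1 : ℝ) ≤ ((s : ℝ) + k) ^ (2 * k) * ((k : ℝ) ^ 3 * ((p : ℝ) ^ (2 * s) * ((N : ℝ) ^ k *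
      ((k.factorial : ℝ) * (p : ℝ) ^ (k * (k - 1) / 2))) * J s k (N / p + 1))) := by
    exact_mod_cast hB1
  have hB3 : (J (s + k) k N : ℝ) ≤ S1 + 2 * S2 := by exact_mod_cast hA6
  have hJ0 : (0 : ℝ) ≤ J (s + k) k N := Nat.cast_nonneg _
  have hsq : Real.sqrt (J (s + k) k N) ^ 2 = J (s + k) k N := Real.sq_sqrt hJ0
  have hD0 : 0 ≤ D := by positivity
  have hB4 : 4 * D * Real.sqrt (J (s + k) k N) ≤ J (s + k) k N + 4 * D ^ 2 := by
    nlinarith [sq_nonneg (Real.sqrt (J (s + k) k N) - 2 * D)]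
  have hB5 : (J (s + k) k N : ℝ) ≤ 2 * S1 + 4 * D ^ 2 := by
    nlinarith
  calc (J (s + k) k N : ℝ) ≤ 2 * S1 + 4 * D ^ 2 := hB5
    _ ≤ 16 * D ^ 2 + 2 * (((s : ℝ) + k) ^ (2 * k) * ((k : ℝ) ^ 3 * ((p : ℝ) ^ (2 * s) *
        ((N : ℝ) ^ k * ((k.factorial : ℝ) * (p : ℝ) ^ (k * (k - 1) / 2))) *
          J s k (N / p + 1)))) := by nlinarith [sq_nonneg D]
    _ = _ := by ring

end Pool.Agent.H46.VU
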